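import Pool.Agent.CPY.HPr
import Pool.Agent.CPY.SimpC

/-! # Accumulation points

(problem MP_ba5606_gt, project CPY, block E1; `simp (maxDischargeDepth := 99)` proves most goals `IP N _`, `IF N _`, `IR N _`,
see `WCal/Simp.lean`, `WCal/SimpR.lean`, `CPY/SimpC.lean`)

PROOF. For fixed `i` there is `y` such that every internal open `U ∋ y` contains `z (Nat.pair i j)` for infinitely many `j`: otherwise the
internal family of all open `U` such that `∃ m, ∀ j ≥ m, z (Nat.pair i j) ∉ U` covers `X`; a finite subfamily covers `X`; let `m` be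
larger than the bounds of its members; `z (Nat.pair i m)` is in one of them, a contradiction. The relation between `i` and `y`
(`∀ U : St N X, IsOpen U.s → y ∈ U → ∀ m, ∃ j, m ≤ j ∧ z (Nat.pair i j) ∈ U`) is internal, so there is an internal function `zs`
(`choice`). Native open sets contain internal ones (`WSp.base`). -/

set_option autoImplicit false

universe u v w

namespace CPY

open WCal STP WM

variable {N : Type u} [WM N] [Std N] {X : Type v} [WTy N X] [TopologicalSpace X] [WSp N X]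

theorem exists_acc (hc : WCpt N X) {z : ℕ → X} (hz : IF N z) :
    ∃ zs : ℕ → X, IF N zs ∧
      ∀ i U, IsOpen U → zs i ∈ U → {j | z (Nat.pair i j) ∈ U}.Infinite := by
  have hR : IP N (fun p : ℕ × X => ∀ U : St N X, IsOpen U.s → p.2 ∈ U →
      ∀ m : ℕ, ∃ j : ℕ, m ≤ j ∧ z (Nat.pair p.1 j) ∈ U) := by
    simp (maxDischargeDepth := 99) [hz.comp]
  have hex : ∀ i : ℕ, ∃ y : X, ∀ U : St N X, IsOpen U.s → y ∈ U →
      ∀ m : ℕ, ∃ j : ℕ, m ≤ j ∧ z (Nat.pair i j) ∈ U := by
    intro i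
    by_contra hcon
    push Not at hcon
    have hS : IP N (fun U : St N X => IsOpen U.s ∧
        ∃ m : ℕ, ∀ j : ℕ, m ≤ j → ¬ z (Nat.pair i j) ∈ U) := by
      simp (maxDischargeDepth := 99) [hz.comp]
    obtain ⟨l, hl, hl'⟩ := hc ⟨{U : St N X | IsOpen U.s ∧
        ∃ m : ℕ, ∀ j : ℕ, m ≤ j → ¬ z (Nat.pair i j) ∈ U}, hS⟩ (fun U hU => hU.1) (fun x => by
      obtain ⟨U, h1, h2, m, h3⟩ := hcon x
      exact ⟨U, ⟨h1, m, h3⟩, h2⟩)
    have hm : ∀ l : List (St N X), (∀ U ∈ l, ∃ m : ℕ, ∀ j : ℕ, m ≤ j → ¬ z (Nat.pair i j) ∈ U) →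
        ∃ m : ℕ, ∀ U ∈ l, ∀ j : ℕ, m ≤ j → ¬ z (Nat.pair i j) ∈ U := by
      intro l
      induction l with
      | nil => exact fun _ => ⟨0, fun U hU => absurd hU List.not_mem_nil⟩
      | cons V l ih =>
        intro h
        obtain ⟨m, hm⟩ := ih fun U hU => h U (List.mem_cons_of_mem _ hU)
        obtain ⟨m', hm'⟩ := h V List.mem_cons_self
        refine ⟨max m m', fun U hU j hj => ?_⟩
        rcases List.mem_cons.1 hU with rfl | hU
        · exact hm' j ((le_max_right _ _).trans hj)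
        · exact hm U hU j ((le_max_left _ _).trans hj)
    obtain ⟨m, hm⟩ := hm l fun U hU => (hl U hU).2
    obtain ⟨U, hU, h1⟩ := hl' (z (Nat.pair i m))
    exact hm U hU m le_rfl h1
  obtain ⟨zs, hzs, hzs'⟩ := choice (P := fun (i : ℕ) (y : X) => ∀ U : St N X, IsOpen U.s →
    y ∈ U → ∀ m : ℕ, ∃ j : ℕ, m ≤ j ∧ z (Nat.pair i j) ∈ U) hR hex
  refine ⟨zs, hzs, fun i U hU hi => ?_⟩
  obtain ⟨V, hV, hiV, hVU⟩ := WSp.base (N := N) (zs i) U hU hi
  refine Set.infinite_of_forall_exists_gt fun m => ?_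
  obtain ⟨j, hj, hj'⟩ := hzs' i V hV hiV (m + 1)
  exact ⟨j, hVU hj', hj⟩

end CPY
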