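import Pool.Agent.CPY.E.Q

/-! # Prescribing the values at the constants

(problem MP_ba5606_gt, project CPY, block E1; `simp (maxDischargeDepth := 99)` proves most goals `IP N _`, `IF N _`, `IR N _`,
see `WCal/Simp.lean`, `WCal/SimpR.lean`, `CPY/SimpC.lean`)

PROOF. `φ c := P c * cut (c x0) + ψ (c x0)`, `cut t := max 0 (min 1 (3 - t))`, `ψ t := ⨆ n, if b n then max 0 (1 - |t - (n + 3)|) else 0`.
`cut = 1` on `(-∞, 2]` and `cut = 0` on `[3, ∞)`; `ψ = 0` on `(-∞, 2]`, `ψ (n + 3) = 1` if `b n`, `= 0` otherwise. `ψ` is continuous (locally it is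
a maximum of at most two functions; or: it is 1-Lipschitz as a supremum of 1-Lipschitz functions with values in `[0, 1]`). Internal:
`q < ψ t ↔ q < 0 ∨ ∃ n, b n = true ∧ q < max 0 (1 - |t - (n + 3)|)`, evaluation `c ↦ c x0`. -/

set_option autoImplicit false

universe u v w

namespace CPY

open WCal STP WM Filter Topology

variable {N : Type u} [WM N] [Std N] {X : Type v} [WTy N X] [TopologicalSpace X] [WSp N X]

private noncomputable def cu (b : ℕ → Bool) (n : ℕ) (t : ℝ) : ℝ :=
  if b n = true then max 0 (1 - |t - ((n : ℝ) + 3)|) else 0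

private theorem cu_nn (b : ℕ → Bool) (n : ℕ) (t : ℝ) : 0 ≤ cu b n t := by
  unfold cu
  split_ifs
  · exact le_max_left _ _
  · exact le_rfl

private theorem cu_le (b : ℕ → Bool) (n : ℕ) (t : ℝ) : cu b n t ≤ 1 := by
  unfold cu
  split_ifs
  · exact max_le zero_le_one (by linarith [abs_nonneg (t - ((n : ℝ) + 3))])
  · exact zero_le_one

private theorem cu_lip (b : ℕ → Bool) (n : ℕ) (t t' : ℝ) : cu b n t ≤ cu b n t' + dist t t' := by
  unfold cu
  split_ifs
  · rw [Real.dist_eq]
    refine max_le ?_ ?_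
    · exact add_nonneg (le_max_left _ _) (abs_nonneg _)
    · have h1 : |t' - ((n : ℝ) + 3)| ≤ |t - ((n : ℝ) + 3)| + |t - t'| := by
        have h2 := abs_sub_le t' t ((n : ℝ) + 3)
        rw [abs_sub_comm t' t] at h2
        linarith
      have h3 := le_max_right (0 : ℝ) (1 - |t' - ((n : ℝ) + 3)|)
      linarith
  · rw [zero_add]
    exact dist_nonneg

private theorem cu_zero (b : ℕ → Bool) (n : ℕ) {t : ℝ} (h : 1 ≤ |t - ((n : ℝ) + 3)|) :
    cu b n t = 0 := by
  unfold cu
  split_ifs
  · exact max_eq_left (by linarith)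
  · rfl

private theorem cu_bdd (b : ℕ → Bool) (t : ℝ) : BddAbove (Set.range fun n => cu b n t) :=
  ⟨1, by rintro _ ⟨n, rfl⟩; exact cu_le b n t⟩

private noncomputable def cpsi (b : ℕ → Bool) (t : ℝ) : ℝ := ⨆ n, cu b n t

private theorem cpsi_cont (b : ℕ → Bool) : Continuous (cpsi b) := by
  refine (LipschitzWith.of_le_add (f := cpsi b) fun t t' => ?_).continuous
  exact ciSup_le fun n => (cu_lip b n t t').trans (by
    have := le_ciSup (cu_bdd b t') n
    unfold cpsi
    linarith)

private theorem cpsi_val (b : ℕ → Bool) (n : ℕ) : cpsi b ((n : ℝ) + 3) = if b n then 1 else 0 := by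
  have h1 : cu b n ((n : ℝ) + 3) = if b n then 1 else 0 := by
    unfold cu
    by_cases h : b n = true
    · simp [h]
    · simp [h]
  have h2 : ∀ m, cu b m ((n : ℝ) + 3) ≤ if b n then 1 else 0 := by
    intro m
    by_cases hm : m = n
    · rw [hm, h1]
    · have h3 : cu b m ((n : ℝ) + 3) = 0 := by
        refine cu_zero b m ?_
        have h4 : ((n : ℝ) + 3) - ((m : ℝ) + 3) = (((n : ℤ) - (m : ℤ) : ℤ) : ℝ) := by
          push_cast
          ring
        rw [h4, ← Int.cast_abs]
        have h5 : (1 : ℤ) ≤ |(n : ℤ) - (m : ℤ)| := by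
          rw [← Int.zero_add 1, Int.add_one_le_iff]
          exact abs_pos.2 (sub_ne_zero.2 fun h => hm (by exact_mod_cast h.symm))
        exact_mod_cast h5
      rw [h3]
      split_ifs
      · exact zero_le_one
      · exact le_rfl
  refine le_antisymm (ciSup_le h2) ?_
  rw [← h1]
  exact le_ciSup (cu_bdd b ((n : ℝ) + 3)) n

private theorem cpsi_zero (b : ℕ → Bool) {t : ℝ} (h : t ≤ 2) : cpsi b t = 0 := by
  have h1 : ∀ n, cu b n t = 0 := by
    intro n
    refine cu_zero b n ?_
    have h2 : (0 : ℝ) ≤ n := Nat.cast_nonneg n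
    rw [abs_sub_comm]
    exact le_trans (by linarith) (le_abs_self _)
  unfold cpsi
  simp [h1]

private theorem cpsi_int (x0 : X) {b : ℕ → Bool} (hb : IF N b) :
    IR N (fun c : CC N X => cpsi b (c x0)) := by
  refine IR.iSup (f := fun (c : CC N X) (n : ℕ) => cu b n (c x0)) ?_ fun c => cu_bdd b (c x0)
  refine IR.congr (fun p => ?_) (IR.ite (N := N) (P := fun p : CC N X × ℕ => b p.2 = true)
    (f := fun p : CC N X × ℕ => max 0 (1 - |p.1 x0 - ((p.2 : ℝ) + 3)|)) (g := fun _ => 0)
    ?_ ?_ ?_)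
  · unfold cu
    split_ifs <;> rfl
  · exact IP.eq (hb.comp IF.snd) (IF.const true)
  · simp (maxDischargeDepth := 99)
  · simp (maxDischargeDepth := 99)

theorem exists_code (x0 : X) {b : ℕ → Bool} (hb : IF N b) (P : CC N (CC N X)) :
    ∃ φ : CC N (CC N X), (∀ n, φ (kap N X n) = if b n then 1 else 0) ∧
      ∀ c : CC N X, c x0 ≤ 2 → φ c = P c := by
  have hI := cpsi_int (N := N) x0 hb
  have hP := P.int
  refine ⟨⟨fun c => P c * max 0 (min 1 (3 - c x0)) + cpsi b (c x0), ?_, ?_⟩, fun n => ?_,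
    fun c hc => ?_⟩
  · refine IR.add ?_ hI
    simp (maxDischargeDepth := 99) [hP]
  · have h1 := CC.continuous_eval (N := N) x0
    exact (P.cont.mul (continuous_const.max (continuous_const.min
      (continuous_const.sub h1)))).add ((cpsi_cont b).comp h1)
  · have h1 : (0 : ℝ) ≤ n := Nat.cast_nonneg n
    have h2 : (kap N X n).f x0 = (n : ℝ) + 3 := rfl
    show P (kap N X n) * max 0 (min 1 (3 - (kap N X n).f x0)) + cpsi b ((kap N X n).f x0) = _
    rw [h2, cpsi_val, max_eq_left ((min_le_right _ _).trans (by linarith)), mul_zero, zero_add]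
  · show P c * max 0 (min 1 (3 - c x0)) + cpsi b (c x0) = P c
    rw [cpsi_zero b hc, min_eq_left (by linarith), max_eq_right zero_le_one, mul_one, add_zero]

end CPY
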