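import Pool.Agent.CPY.E.Net

/-! # The sequence of length `ω₁`

(problem MP_ba5606_gt, project CPY, block E1; `simp (maxDischargeDepth := 99)` proves most goals `IP N _`, `IF N _`, `IR N _`,
see `WCal/Simp.lean`, `WCal/SimpR.lean`, `CPY/SimpC.lean`)

PROOF. `wfChoice` (WCal/Rec.lean) for the well-order of `Θ`, `β := CC N X × X × X` and the relation `R a S (f, x, y)` :=
`(∀ t, 0 ≤ f t ∧ f t ≤ 1) ∧ (∀ t, g t ≤ 1/3 → f t = 0) ∧ x ∈ A ∧ y ∈ A ∧ f x ≠ f y ∧ ∀ b f' x' y', (b, (f', x', y')) ∈ S → f' x = f' y`.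
It is internal (`IR` of the evaluation). Existence of the step: let `S` be a history at `a` (the domain is `{b | b < a}`, and it is
functional). By `OmO.seg` there is an internal sequence `c : ℕ → Option (CC N X)` or `c : ℕ → CC N X` whose range contains all `f'` with
`(b, (f', x', y')) ∈ S` (if `a` is the least element then there are none; use the constant sequence `g`). Apply `WNet.sep` to this
sequence (plus `g`, if a default value is needed) and the closed set `A`: since `A` has no countable network there are `x ≠ y` in `A` which are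
not separated by any `f'` in the history. `U := {t | 1/3 < g t} ∖ {y}` is open and contains `x` (`2/3 ≤ g x`); by `Ty` there is `f` with
`f x = 1`, `f = 0` outside `U`; so `f y = 0`, and `f t = 0` if `g t ≤ 1/3`. -/

set_option autoImplicit false

universe u v w

namespace CPY

open WCal STP WM

variable {N : Type u} [WM N] [Std N] {X : Type v} [WTy N X] [TopologicalSpace X] [WSp N X]

private theorem om_step {Θ : Type w} [WTy N Θ] [LinearOrder Θ] (hΘ : OmO N Θ) [T2Space X]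
    (hc : WCpt N X) (ht : Ty N X) {g : CC N X} {A : St N X} (hA : IsClosed A.s) (hn : ¬ WNet N A)
    (hg : ∀ x ∈ A, (2 / 3 : ℝ) ≤ g x) (a : Θ) (S : St N (Θ × (CC N X × X × X)))
    (hS : ∀ q ∈ S, q.1 < a) (hS' : ∀ b, b < a → ∃! y, (b, y) ∈ S) :
    ∃ z : CC N X × X × X, (∀ t, 0 ≤ z.1 t ∧ z.1 t ≤ 1) ∧ (∀ t, g t ≤ 1 / 3 → z.1 t = 0) ∧
      z.2.1 ∈ A ∧ z.2.2 ∈ A ∧ ¬ z.1 z.2.1 = z.1 z.2.2 ∧
      ∀ q : Θ × (CC N X × X × X), q ∈ S → q.2.1 z.2.1 = q.2.1 z.2.2 := by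
  obtain ⟨e, he, he'⟩ := hΘ.seg a
  have hP : IP N (fun p : ℕ × CC N X => ∃ z : X × X, (e p.1, (p.2, z)) ∈ S) := by
    simp (maxDischargeDepth := 99) [he.comp]
  obtain ⟨c, hci, hc'⟩ := choice' (P := fun (n : ℕ) (f : CC N X) => ∃ z : X × X, (e n, (f, z)) ∈ S)
    hP g
  have hall : ∀ q : Θ × (CC N X × X × X), q ∈ S → ∃ n, c n = q.2.1 := by
    rintro ⟨b, f', z⟩ hq
    obtain ⟨n, hn⟩ := he' b (hS _ hq)
    obtain ⟨z', hz'⟩ := hc' n ⟨f', z, by rw [hn]; exact hq⟩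
    rw [hn] at hz'
    have := (hS' b (hS _ hq)).unique hz' hq
    exact ⟨n, congrArg Prod.fst this⟩
  have hsep : ∃ x ∈ A, ∃ y ∈ A, x ≠ y ∧ ∀ n, c n x = c n y := by
    by_contra hcon
    push Not at hcon
    exact hn (WNet.sep hc (g := fun n x => c n x) (IR.evC (hci.comp IF.fst) IF.snd)
      (fun n => (c n).cont) hA hcon)
  obtain ⟨x, hx, y, hy, hxy, hcxy⟩ := hsep
  obtain ⟨f, hf, hfx, hfU⟩ := ht x ({t | (1 / 3 : ℝ) < g t} ∩ {y}ᶜ)
    ((isOpen_lt continuous_const g.cont).inter isOpen_compl_singleton)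
    ⟨by have := hg x hx; show (1 / 3 : ℝ) < g x; linarith, hxy⟩
  refine ⟨(f, x, y), hf, fun t htt => hfU t fun h => absurd h.1 (not_lt.2 htt), hx, hy, ?_,
    fun q hq => ?_⟩
  · have h0 : f y = 0 := hfU y fun h => h.2 rfl
    show ¬ f x = f y
    rw [hfx, h0]
    norm_num
  · obtain ⟨n, hn⟩ := hall q hq
    show q.2.1 x = q.2.1 y
    rw [← hn]
    exact hcxy n

theorem exists_om {Θ : Type w} [WTy N Θ] [LinearOrder Θ] (hΘ : OmO N Θ) [T2Space X]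
    (hc : WCpt N X) (ht : Ty N X) {g : CC N X} {A : St N X} (hA : IsClosed A.s) (hn : ¬ WNet N A)
    (hg : ∀ x ∈ A, (2 / 3 : ℝ) ≤ g x) :
    ∃ (f : Θ → CC N X) (x y : Θ → X), IF N f ∧ IF N x ∧ IF N y ∧
      (∀ a t, 0 ≤ f a t ∧ f a t ≤ 1) ∧ (∀ a t, g t ≤ 1 / 3 → f a t = 0) ∧
      (∀ a, x a ∈ A ∧ y a ∈ A) ∧ (∀ a, f a (x a) ≠ f a (y a)) ∧
      ∀ a b, b < a → f b (x a) = f b (y a) := by
  have hR : IP N (fun p : Θ × St N (Θ × (CC N X × X × X)) × (CC N X × X × X) =>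
      (∀ t, 0 ≤ p.2.2.1 t ∧ p.2.2.1 t ≤ 1) ∧ (∀ t, g t ≤ 1 / 3 → p.2.2.1 t = 0) ∧
      p.2.2.2.1 ∈ A ∧ p.2.2.2.2 ∈ A ∧ ¬ p.2.2.1 p.2.2.2.1 = p.2.2.1 p.2.2.2.2 ∧
      ∀ q : Θ × (CC N X × X × X), q ∈ p.2.1 → q.2.1 p.2.2.2.1 = q.2.1 p.2.2.2.2) := by
    simp (maxDischargeDepth := 99) [g.int.comp, -Prod.forall, -Prod.exists]
  obtain ⟨F, hF, hF'⟩ := wfChoice (α := Θ) (β := CC N X × X × X) (r := fun a b => a < b) hΘ.wf
    (fun a b c h h' => lt_trans h h') hΘ.lt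
    (R := fun (_ : Θ) (S : St N (Θ × (CC N X × X × X))) (z : CC N X × X × X) =>
      (∀ t, 0 ≤ z.1 t ∧ z.1 t ≤ 1) ∧ (∀ t, g t ≤ 1 / 3 → z.1 t = 0) ∧
      z.2.1 ∈ A ∧ z.2.2 ∈ A ∧ ¬ z.1 z.2.1 = z.1 z.2.2 ∧
      ∀ q : Θ × (CC N X × X × X), q ∈ S → q.2.1 z.2.1 = q.2.1 z.2.2) hR
    (fun a S h1 h2 _ => om_step hΘ hc ht hA hn hg a S h1 h2)
  have hint : ∀ a : Θ, IP N (fun q : Θ × (CC N X × X × X) => q.1 < a ∧ F q.1 = q.2) := by
    intro a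
    exact IP.and (IP.comp2 (P := fun x y : Θ => x < y) hΘ.lt IF.fst (IF.const a))
      (IP.eq (hF.comp IF.fst) IF.snd)
  have hh : ∀ a, _ := fun a => hF' a ⟨{q | q.1 < a ∧ F q.1 = q.2}, hint a⟩ (fun q => Iff.rfl)
  refine ⟨fun a => (F a).1, fun a => (F a).2.1, fun a => (F a).2.2, IF.fst.comp hF,
    IF.fst.comp (IF.snd.comp hF), IF.snd.comp (IF.snd.comp hF), fun a => (hh a).1,
    fun a => (hh a).2.1, fun a => ⟨(hh a).2.2.1, (hh a).2.2.2.1⟩, fun a => (hh a).2.2.2.2.1,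
    fun a b hba => ?_⟩
  exact (hh a).2.2.2.2.2 (b, F b) ⟨hba, rfl⟩

end CPY
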