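import Pool.Agent.CPY.HPr
import Pool.Agent.CPY.SimpC

/-! # The sequence of functions with disjoint supports

(problem MP_ba5606_gt, project CPY, block E1; `simp (maxDischargeDepth := 99)` proves most goals `IP N _`, `IF N _`, `IR N _`,
see `WCal/Simp.lean`, `WCal/SimpR.lean`, `CPY/SimpC.lean`)

PROOF. Dependent choice (`dc'`) for states `(h, z, e) : CC N X × X × CC N X`, `Q (h, z, e) := (∀ x, 0 ≤ h x) ∧ h p' = 0`, start `(g, p', g)`,
and the relation `R (h, z, e) (h', z', e')` := `(∀ x, h' x < 1/3 → h x < 1/3) ∧ e' z' = 1 ∧ (∀ x, 0 ≤ e' x ∧ e' x ≤ 1) ∧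
∀ x, 0 < e' x → h x < 1/3 ∧ 1/3 < h' x`. Existence of the step: the open set `{h < 1/3}` contains `p'`, so it contains some
`z' ≠ p'`; by `Ty` there is `c` with `c p' = 1`, `c = 0` outside `{h < 1/3} ∖ {z'}` (points are closed); `h' := 1 - c`; so `h' z' = 1` and
`h' x < 1/3` implies `h x < 1/3`; by `Ty` there is `e'` with `e' z' = 1`, `e' = 0` outside `{h < 1/3} ∩ {1/3 < h'}`.
Let `(h n, z n, e n)` be the sequence; the result is `n ↦ z (n + 1)`, `e (n + 1)`. If `m < n` and `0 < e (n + 1) x` then `h n x < 1/3`, so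
`h (m + 1) x < 1/3` (induction), and `¬ 0 < e (m + 1) x`. The relation is internal: evaluation `(c, x) ↦ c x` is `IR`. -/

set_option autoImplicit false

universe u v w

namespace CPY

open WCal STP WM

variable {N : Type u} [WM N] [Std N] {X : Type v} [WTy N X] [TopologicalSpace X] [WSp N X]

omit [WSp N X] in
private theorem dis_step [T2Space X] (ht : Ty N X) {h : CC N X} {p' : X} (h0 : h p' = 0)
    (hacc : ∀ V : Set X, IsOpen V → p' ∈ V → ∃ z ∈ V, z ≠ p') :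
    ∃ (h' : CC N X) (z' : X) (e' : CC N X), ((∀ x, 0 ≤ h' x) ∧ h' p' = 0) ∧
      (∀ x, h' x < 1 / 3 → h x < 1 / 3) ∧ e' z' = 1 ∧ (∀ x, 0 ≤ e' x ∧ e' x ≤ 1) ∧
      ∀ x, 0 < e' x → h x < 1 / 3 ∧ 1 / 3 < h' x := by
  have hV : IsOpen {x | h x < 1 / 3} := isOpen_lt h.cont continuous_const
  have hp : p' ∈ {x | h x < 1 / 3} := by
    change h p' < 1 / 3
    rw [h0]
    norm_num
  obtain ⟨z', hz, hz'⟩ := hacc _ hV hp
  obtain ⟨c, hc, hcp, hc0⟩ := ht p' ({x | h x < 1 / 3} \ {z'}) (hV.sdiff isClosed_singleton)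
    ⟨hp, fun h => hz' h.symm⟩
  have hi : IR N (fun x => 1 - c x) := IR.sub (IR.const isR_one) c.int
  have hcont : Continuous fun x => 1 - c x := continuous_const.sub c.cont
  have hW : IsOpen ({x | h x < 1 / 3} ∩ {x | 1 / 3 < 1 - c x}) :=
    hV.inter (isOpen_lt continuous_const hcont)
  have hcz : c z' = 0 := hc0 z' fun h => h.2 rfl
  obtain ⟨e', he, hez, he0⟩ := ht z' _ hW ⟨hz, by
    change 1 / 3 < 1 - c z'
    rw [hcz]
    norm_num⟩
  refine ⟨⟨fun x => 1 - c x, hi, hcont⟩, z', e', ⟨fun x => ?_, ?_⟩, fun x hx => ?_, hez, he,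
    fun x hx => ?_⟩
  · change 0 ≤ 1 - c x
    linarith [(hc x).2]
  · change 1 - c p' = 0
    rw [hcp, sub_self]
  · have hx' : 1 - c x < 1 / 3 := hx
    by_contra h1
    have h2 : c x = 0 := hc0 x fun h => h1 h.1
    rw [h2] at hx'
    norm_num at hx'
  · by_contra h1
    have h2 : e' x = 0 := he0 x fun h => h1 h
    rw [h2] at hx
    exact lt_irrefl _ hx

theorem exists_dis [T2Space X] (ht : Ty N X) {g : CC N X} {p' : X}
    (hg : ∀ x, 0 ≤ g x ∧ g x ≤ 1) (hp : g p' = 0)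
    (hacc : ∀ V : Set X, IsOpen V → p' ∈ V → ∃ z ∈ V, z ≠ p') :
    ∃ (e : ℕ → CC N X) (z : ℕ → X), IF N e ∧ IF N z ∧ Dis (fun n => (e n : X → ℝ)) ∧
      (∀ n, e n (z n) = 1) ∧ ∀ n x, 0 < e n x → g x < 1 / 3 := by
  have hQ : IP N (fun a : CC N X × X × CC N X => (∀ x, 0 ≤ a.1 x) ∧ a.1 p' = 0) := by
    simp (maxDischargeDepth := 99)
  have hR : IP N (fun q : ℕ × (CC N X × X × CC N X) × (CC N X × X × CC N X) =>
      (∀ x, q.2.2.1 x < 1 / 3 → q.2.1.1 x < 1 / 3) ∧ q.2.2.2.2 q.2.2.2.1 = 1 ∧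
        (∀ x, 0 ≤ q.2.2.2.2 x ∧ q.2.2.2.2 x ≤ 1) ∧
        ∀ x, 0 < q.2.2.2.2 x → q.2.1.1 x < 1 / 3 ∧ 1 / 3 < q.2.2.1 x) := by
    simp (maxDischargeDepth := 99)
  obtain ⟨s, hs, hs0, hsQ, hsR⟩ := dc' (Q := fun a : CC N X × X × CC N X =>
    (∀ x, 0 ≤ a.1 x) ∧ a.1 p' = 0) hQ (R := fun (_ : ℕ) (a b : CC N X × X × CC N X) =>
      (∀ x, b.1 x < 1 / 3 → a.1 x < 1 / 3) ∧ b.2.2 b.2.1 = 1 ∧
        (∀ x, 0 ≤ b.2.2 x ∧ b.2.2 x ≤ 1) ∧
        ∀ x, 0 < b.2.2 x → a.1 x < 1 / 3 ∧ 1 / 3 < b.1 x) hR (fun n a ha => by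
      obtain ⟨h', z', e', h1, h2⟩ := dis_step ht ha.2 hacc
      exact ⟨(h', z', e'), h1, h2⟩) (g, p', g) ⟨fun x => (hg x).1, hp⟩
  have hmono : ∀ k n x, (s (n + k)).1 x < 1 / 3 → (s n).1 x < 1 / 3 := by
    intro k
    induction k with
    | zero => exact fun n x h => h
    | succ k ih => exact fun n x h => ih n x ((hsR (n + k)).1 x h)
  have hkey : ∀ m n x, 0 < (s (m + 1)).2.2 x → 0 < (s (n + 1)).2.2 x → ¬ m < n := by
    intro m n x h1 h2 h3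
    have h4 := ((hsR n).2.2.2 x h2).1
    have h5 := ((hsR m).2.2.2 x h1).2
    obtain ⟨k, rfl⟩ : ∃ k, n = m + 1 + k := ⟨n - (m + 1), by omega⟩
    exact lt_asymm h5 (hmono k (m + 1) x h4)
  have hs1 : IF N fun n : ℕ => s (n + 1) := by
    simp (maxDischargeDepth := 99) [hs.comp]
  refine ⟨fun n => (s (n + 1)).2.2, fun n => (s (n + 1)).2.1, hs1.snd'.snd', hs1.snd'.fst',
    ⟨fun n => (s (n + 1)).2.2.cont, fun n x => ((hsR n).2.2.1 x).1,
      fun n x => ((hsR n).2.2.1 x).2, fun m n x h1 h2 => ?_⟩, fun n => (hsR n).2.1,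
    fun n x hx => ?_⟩
  · rcases lt_trichotomy m n with h | h | h
    · exact absurd h (hkey m n x h1 h2)
    · exact h
    · exact absurd h (hkey n m x h2 h1)
  · have h1 := hmono n 0 x (by rw [Nat.zero_add]; exact ((hsR n).2.2.2 x hx).1)
    rwa [hs0] at h1

end CPY
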