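import Pool.Agent.CPY.E.Pts
import Pool.Agent.CPY.E.Seq
import Pool.Agent.CPY.E.Acc
import Pool.Agent.CPY.E.Om

/-! # The internal configuration

(problem MP_ba5606_gt, project CPY, block E1; `simp (maxDischargeDepth := 99)` proves most goals `IP N _`, `IF N _`, `IR N _`,
see `WCal/Simp.lean`, `WCal/SimpR.lean`, `CPY/SimpC.lean`)

PROOF. `exists_cfg`: `exists_pts` gives `g`, `p'`; `exists_dis` gives `e`, `z`; `exists_acc` gives `zs`; `exists_om` for the closed set
`A := {x ∈ K | 2/3 ≤ g x}` gives `f`, `x`, `y`. -/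

set_option autoImplicit false

universe u v w

namespace CPY

open WCal STP WM

variable {N : Type u} [WM N] [Std N] {X : Type v} [WTy N X] [TopologicalSpace X] [WSp N X] {Θ : Type w} [WTy N Θ]
  [LinearOrder Θ]

/-- all parts of the configuration are internal -/
structure ICfg (N : Type u) [WM N] {X : Type v} [WTy N X] [TopologicalSpace X] {Θ : Type w} [WTy N Θ]
    [LinearOrder Θ] (K : Cfg X Θ) : Prop where
  e : IR N (fun p : ℕ × X => K.e p.1 p.2)
  g : IR N K.g
  z : IF N K.z
  zs : IF N K.zs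
  D : IF N K.D
  f : IR N (fun p : Θ × X => K.f p.1 p.2)
  x : IF N K.x
  y : IF N K.y

theorem exists_cfg (hΘ : OmO N Θ) [T2Space X] (hc : WCpt N X) (ht : Ty N X) {D : ℕ → X}
    (hD : IF N D) {K : St N X} (hK : K.s = closure (Set.range D)) (hn : ¬ WNet N K) :
    ∃ C : Cfg X Θ, ICfg N C ∧ C.D = D := by
  obtain ⟨g, p', hg, hgp, hacc, hnn⟩ := exists_pts hc ht hD hK hn
  obtain ⟨e, z, he, hz, hdis, hez, heg⟩ := exists_dis ht hg hgp hacc
  obtain ⟨zs, hzs, hzs'⟩ := exists_acc hc hz
  have hAi : IP N (fun x : X => x ∈ K ∧ (2 / 3 : ℝ) ≤ g x) := by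
    refine IP.and K.int (IP.leR ?_ g.int)
    have h := isR_rat (N := N) (2 / 3)
    push_cast at h
    exact IR.const h
  obtain ⟨A, hA⟩ : ∃ A : St N X, A = ⟨{x | x ∈ K ∧ (2 / 3 : ℝ) ≤ g x}, hAi⟩ := ⟨_, rfl⟩
  have hmem : ∀ x, x ∈ A → x ∈ K ∧ (2 / 3 : ℝ) ≤ g x := by
    intro x hx
    rw [hA] at hx
    exact hx
  have hAc : IsClosed A.s := by
    have h1 : IsClosed K.s := by
      rw [hK]
      exact isClosed_closure
    rw [hA]
    exact h1.inter (isClosed_le continuous_const g.cont)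
  have hn' : ¬ WNet N A := hnn A fun x hx hgx => by
    rw [hA]
    exact ⟨hx, hgx⟩
  obtain ⟨f, x, y, hf, hx, hy, hf01, hfg, hxyA, hne, heq⟩ := exists_om hΘ hc ht (g := g) hAc hn'
    fun x hx => (hmem x hx).2
  have hcl : ∀ x, x ∈ A → x ∈ closure (Set.range D) := by
    intro x hx
    rw [← hK]
    exact (hmem x hx).1
  have hlt : ∀ x, x ∈ A → 1 / 3 < g x := by
    intro x hx
    have := (hmem x hx).2
    linarith
  exact ⟨{
    e := fun n => e n
    g := g
    z := z
    zs := zs
    D := D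
    f := fun a => f a
    x := x
    y := y
    dis := hdis
    gc := g.cont
    ez := hez
    eg := heg
    zs_acc := hzs'
    fc := fun a => (f a).cont
    f0 := fun a p => (hf01 a p).1
    f1 := fun a p => (hf01 a p).2
    fg := hfg
    xD := fun a => hcl _ (hxyA a).1
    yD := fun a => hcl _ (hxyA a).2
    xg := fun a => hlt _ (hxyA a).1
    yg := fun a => hlt _ (hxyA a).2
    ne := hne
    eq := heq }, {
    e := IR.evC (he.comp IF.fst) IF.snd
    g := g.int
    z := hz
    zs := hzs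
    D := hD
    f := IR.evC (hf.comp IF.fst) IF.snd
    x := hx
    y := hy }, rfl⟩

end CPY
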