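import Pool.Agent.CPY.E.Q
import Pool.Agent.CPY.EKp

/-! # The closed conditions `K_a`

(problem MP_ba5606_gt, project CPY, block E1; `simp (maxDischargeDepth := 99)` proves most goals `IP N _`, `IF N _`, `IR N _`,
see `WCal/Simp.lean`, `WCal/SimpR.lean`, `CPY/SimpC.lean`)

PROOFS.
* `KpC_int`: unfold `Kp`, `UU`; all parts are internal: evaluation of `φ` at `kap n` and at `qC a s`, the tree `TF F`, the inequality
  `|r a i - w i| < (1/2)^k` of real numbers (with `q = (1/2)^k` rational: the function `k ↦ (1/2 : ℚ)^k` is internal), lengths and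
  entries of lists.
* `KpC_open`: preimage of the open set `Kp_open` (`EKp.lean`) under the coercion `CC N (CC N X) → (CC N X → ℝ)`, which is continuous.
* `exists_not_KpC`: suppose that `KpC F hC a φ` for all `a`. `b := fun n => decide (φ (kap n) = 1)` is internal, so by (F1) there are `a` and an
  internal `v` with `(b, r a, v) ∈ F`. Let `c := f_a + θ_v` (`exists_qv`). By `qC_lim` and the continuity of `φ` the numbers
  `φ (q_{a, v|k})` converge to `φ c`, so they are bounded, and `not_Kp` (`EKp.lean`) gives a contradiction. -/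

set_option autoImplicit false

universe u v w

namespace CPY

open WCal STP WM Filter Topology

variable {N : Type u} [WM N] [Std N] {X : Type v} [WTy N X] [TopologicalSpace X] [WSp N X] {Θ : Type w} [WTy N Θ]
  [LinearOrder Θ]

/-- the conditions `K_a` -/
def KpC (F : Set ((ℕ → Bool) × (ℕ → ℝ) × (ℕ → ℕ))) {C : Cfg X Θ} (hC : ICfg N C) (a : Θ)
    (φ : CC N (CC N X)) : Prop :=
  Kp F (kap N X) (qC hC a) (C.r a) φ

private theorem getD_int {γ : Type*} [WTy N γ] {β : Type*} [WTy N β] {l : γ → List β} {i : γ → ℕ} (d : β)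
    (hl : IF N l) (hi : IF N i) : IF N (fun c => (l c).getD (i c) d) := by
  have h : IF N (fun c => ((l c)[i c]?).elim d fun n : β => n) :=
    IF.optElim (IF.getElem? hl hi) (IF.const d) IF.snd
  refine IF.congr (fun c => ?_) h
  rw [List.getD_eq_getElem?_getD]
  cases (l c)[i c]? <;> rfl

theorem KpC_int {F : Set ((ℕ → Bool) × (ℕ → ℝ) × (ℕ → ℕ))}
    (hF : IP N (fun t : List Bool × List ℚ × List ℕ => TF F t.1 t.2.1 t.2.2)) {C : Cfg X Θ}
    (hC : ICfg N C) : IP N (fun p : Θ × CC N (CC N X) => KpC F hC p.1 p.2) := by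
  have h1 := r_int hC
  have h2 := IF_qC hC
  have h3 := IF_kap N X
  have h : IP N (fun p : Θ × CC N (CC N X) => (∀ n, p.2 (kap N X n) = 0 ∨ p.2 (kap N X n) = 1) ∧
      ∀ (s : List ℕ) (u : List Bool) (w : List ℚ), TF F u w s → (∀ i, i < s.length →
        (p.2 (kap N X i) = 1 ↔ u.getD i false = true) ∧
          |C.r p.1 i - (w.getD i 0 : ℚ)| < (1 / 2 : ℝ) ^ s.length) →
        (s.length : ℝ) ≤ p.2 (qC hC p.1 s)) := by
    simp (maxDischargeDepth := 99) only [IP.and, IP.all, IP.or, IP.imp, IP.iff, IP.lt, IP.eqR, IP.ltR, IP.leR,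
      IR.evC, IR.sub, IR.abs, IR.rat, IR.nat, IR.half_pow, IR.const, isR_zero, isR_one, IF.fst', IF.snd',
      IF.id, IF.const, IF.length, getD_int, h1.comp2, h2.comp2, h3.comp, hF.comp3, IP.eq]
  refine IP.congr (fun p => ?_) h
  unfold KpC Kp UU
  refine and_congr Iff.rfl ?_
  constructor
  · rintro h s ⟨u, w, hT, hi⟩
    refine h s u w hT fun i hi' => ⟨?_, (hi i hi').2⟩
    rw [← (hi i hi').1]
    exact decide_eq_true_iff.symm
  · intro h s u w hT hi
    refine h s ⟨u, w, hT, fun i hi' => ⟨?_, (hi i hi').2⟩⟩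
    rw [Bool.eq_iff_iff]
    exact decide_eq_true_iff.trans (hi i hi').1

theorem KpC_open (F : Set ((ℕ → Bool) × (ℕ → ℝ) × (ℕ → ℕ))) {C : Cfg X Θ} (hC : ICfg N C) (a : Θ) :
    IsOpen {φ : CC N (CC N X) | ¬ KpC F hC a φ} :=
  (Kp_open (F := F) (κ := kap N X) (q := qC hC a) (r := C.r a)).preimage CC.continuous_f

theorem exists_not_KpC {F : Set ((ℕ → Bool) × (ℕ → ℝ) × (ℕ → ℕ))} {C : Cfg X Θ} (hC : ICfg N C)
    (hF1 : ∀ b : ℕ → Bool, IF N b → ∃ (a : Θ) (v : ℕ → ℕ), IF N v ∧ (b, C.r a, v) ∈ F)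
    (φ : CC N (CC N X)) : ∃ a, ¬ KpC F hC a φ := by
  have h3 := IF_kap N X
  have hb : IF N (fun n => decide (φ (kap N X n) = 1)) := by
    refine IF.ofP (Q := fun (n : ℕ) (b : Bool) => (φ (kap N X n) = 1 ↔ b = true)) ?_ ?_
    · simp (maxDischargeDepth := 99) only [IP.iff, IP.eqR, IR.evC, IR.const, isR_one, IF.fst', IF.snd',
        IF.id, IF.const, h3.comp, IP.eq]
    · intro n b
      by_cases h : φ (kap N X n) = 1 <;> cases b <;> simp [h]
  obtain ⟨a, v, hv, hF⟩ := hF1 _ hb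
  refine ⟨a, fun hK => ?_⟩
  obtain ⟨c, hc⟩ := exists_qv hC a hv
  have hlim : Tendsto (fun k => φ (qC hC a (List.ofFn fun i : Fin k => v i))) atTop (𝓝 (φ c)) :=
    (φ.cont.tendsto c).comp (qC_lim hC a hc)
  obtain ⟨B, hB⟩ := hlim.bddAbove_range
  exact not_Kp hF (C := B) (fun k => hB ⟨k, rfl⟩) hK

end CPY
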