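import Pool.Agent.CPY.HPr
import Pool.Agent.CPY.SimpC
import Pool.Agent.CPY.IIdx

/-! # Countable networks in the model

(problem MP_ba5606_gt, project CPY, block E1; `simp (maxDischargeDepth := 99)` proves most goals
`IP N _`, `IF N _`, `IR N _`,
see `WCal/Simp.lean`, `WCal/SimpR.lean`, `CPY/SimpC.lean`)

PROOFS.
* `WNet.mono`: the same `M`. `WNet.cnt`: `M n = {e n}`. `WNet.union`: interleave the families
`n ↦ M n ∩ A`, `n ↦ M' n ∩ B` (use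
  `Nat.unpair` or `n % 2`, `n / 2`). `WNet.ofIdx`: an internal family over a countable type `I`
(surjection `ℕ → I`).
* `WNet.sep`. Index type `I := List (ℕ × ℚ × ℚ)` (countable by `Cnt.list`). For `l : I` let
`M l := {x ∈ K | ∀ t ∈ l, t.2.1 < g t.1 x ∧
  g t.1 x < t.2.2}`. Let `x ∈ K`, `x ∈ U` open; by `WSp.base` we may assume that `U : St N
X`. Consider the internal family of open
  sets: `U`, the complement of `K` and all `V_t := {y | g t.1 y < t.2.1 ∨ t.2.2 < g t.1 y}` for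
`t : ℕ × ℚ × ℚ` with
  `t.2.1 < g t.1 x < t.2.2`. It covers `X`: if `y ∈ K`, `y ∉ U`, then `y ≠ x`, so `g n x ≠ g n y`
for some `n`, and there are rational
  numbers `p < g n x < q` with `g n y < p` or `q < g n y`. A finite subfamily covers `X`; let `l`
be the list of its indices `t`.
  Then `x ∈ M l`, and `y ∈ M l` is in none of the `V_t`, `t ∈ l`, so `y ∈ U`. -/

set_option autoImplicit false

universe u v w

namespace CPY

open WCal STP WM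

variable {N : Type u} [WM N] [Std N] {X : Type v} [WTy N X] [TopologicalSpace X] [WSp N X]

theorem WNet.mono {A B : St N X} (h : ∀ x ∈ A, x ∈ B) (hB : WNet N B) : WNet N A := by
  obtain ⟨M, hM, hM'⟩ := hB
  refine ⟨M, hM, fun x hx U hU hxU => ?_⟩
  obtain ⟨n, hn, hn'⟩ := hM' x (h x hx) U hU hxU
  exact ⟨n, hn, fun y hy hyA => hn' y hy (h y hyA)⟩

theorem WNet.cnt {e : ℕ → X} (he : IF N e) {A : St N X} (h : ∀ x ∈ A, ∃ n, e n = x) : WNet N A := by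
  have h1 : IP N (fun p : ℕ × X => p.2 = e p.1) := by
    simp (maxDischargeDepth := 99) [he.comp]
  refine ⟨fun n => ⟨{y | y = e n}, h1.sec n⟩, IF.compr (P := fun n y => y = e n) h1, ?_⟩
  intro x hx U _ hxU
  obtain ⟨n, rfl⟩ := h x hx
  refine ⟨n, rfl, fun y hy _ => ?_⟩
  have h2 : y = e n := hy
  rw [h2]
  exact hxU

theorem WNet.union {A B C : St N X} (hA : WNet N A) (hB : WNet N B) (h : ∀ x ∈ C, x ∈ A ∨ x ∈ B) :
    WNet N C := by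
  obtain ⟨M, hM, hM'⟩ := hA
  obtain ⟨M2, hM2, hM2'⟩ := hB
  have h1 : IP N (fun p : ℕ × X => (p.1 % 2 = 0 ∧ p.2 ∈ M (p.1 / 2) ∧ p.2 ∈ A) ∨
      (¬ p.1 % 2 = 0 ∧ p.2 ∈ M2 (p.1 / 2) ∧ p.2 ∈ B)) := by
    simp (maxDischargeDepth := 99) [hM.comp, hM2.comp]
  refine ⟨fun n => ⟨{y | (n % 2 = 0 ∧ y ∈ M (n / 2) ∧ y ∈ A) ∨
      (¬ n % 2 = 0 ∧ y ∈ M2 (n / 2) ∧ y ∈ B)}, h1.sec n⟩,
    IF.compr (P := fun n y => (n % 2 = 0 ∧ y ∈ M (n / 2) ∧ y ∈ A) ∨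
      (¬ n % 2 = 0 ∧ y ∈ M2 (n / 2) ∧ y ∈ B)) h1, ?_⟩
  intro x hx U hU hxU
  rcases h x hx with hxA | hxB
  · obtain ⟨n, hn, hn'⟩ := hM' x hxA U hU hxU
    have e1 : 2 * n % 2 = 0 := by omega
    have e2 : 2 * n / 2 = n := by omega
    refine ⟨2 * n, Or.inl ⟨e1, by rw [e2]; exact hn, hxA⟩, fun y hy _ => ?_⟩
    rcases hy with ⟨-, h2, h3⟩ | ⟨h2, -⟩
    · rw [e2] at h2
      exact hn' y h2 h3
    · exact absurd e1 h2
  · obtain ⟨n, hn, hn'⟩ := hM2' x hxB U hU hxU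
    have e1 : ¬ (2 * n + 1) % 2 = 0 := by omega
    have e2 : (2 * n + 1) / 2 = n := by omega
    refine ⟨2 * n + 1, Or.inr ⟨e1, by rw [e2]; exact hn, hxB⟩, fun y hy _ => ?_⟩
    rcases hy with ⟨h2, -⟩ | ⟨-, h2, h3⟩
    · exact absurd h2 e1
    · rw [e2] at h2
      exact hn' y h2 h3

omit [Std N] in
/-- the enumeration of the rational numbers is internal -/
private theorem net_qe : IF N (fun n : ℕ => qe.symm n) := by
  refine IP.of_sat (STP.Fml.ex (STP.fOP 1 0 0)) (fun _ => rg N ℕ) fun p => ?_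
  simp only [STP.sat_ex, STP.sat_fOP, STP.cns_zero, STP.cns_one, isOP_iff]
  change qe.symm p.1 = p.2 ↔ ∃ x, op (cd N p.1) (cd N (qe p.2)) = op x x
  constructor
  · intro h
    refine ⟨cd N p.1, ?_⟩
    rw [← h, Equiv.apply_symm_apply]
  · rintro ⟨x, hx⟩
    obtain ⟨h1, h2⟩ := op_inj.1 hx
    have h3 : p.1 = qe p.2 := cd_inj.1 (h1.trans h2.symm)
    rw [h3, Equiv.symm_apply_apply]

/-- an internal enumeration of all lists of triples -/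
private theorem net_enum : ∃ e : ℕ → List (ℕ × ℚ × ℚ), IF N e ∧ ∀ l, ∃ n, e n = l := by
  have hq : IF N (fun n : ℕ => qe.symm n) := net_qe
  have hd : IF N (fun n : ℕ => (((Nat.unpair n).1, qe.symm (Nat.unpair (Nat.unpair n).2).1,
      qe.symm (Nat.unpair (Nat.unpair n).2).2) : ℕ × ℚ × ℚ)) :=
    IF.pair (IF.unpair1 IF.id) (IF.pair (IF.comp hq (IF.unpair1 (IF.unpair2 IF.id)))
      (IF.comp hq (IF.unpair2 (IF.unpair2 IF.id))))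
  have hs : ∀ t : ℕ × ℚ × ℚ, ∃ n : ℕ, (((Nat.unpair n).1,
      qe.symm (Nat.unpair (Nat.unpair n).2).1,
      qe.symm (Nat.unpair (Nat.unpair n).2).2) : ℕ × ℚ × ℚ) = t := by
    rintro ⟨a, b, c⟩
    refine ⟨Nat.pair a (Nat.pair (qe b) (qe c)), ?_⟩
    simp only [Nat.unpair_pair, Equiv.symm_apply_apply]
  have h1 : Cnt (⟨{_t : ℕ × ℚ × ℚ | True}, IP.const True⟩ : St N (ℕ × ℚ × ℚ)) :=
    Cnt.range hd fun t _ => hs t
  have h2 : Cnt (⟨{_l : List (ℕ × ℚ × ℚ) | True}, IP.const True⟩ : St N (List (ℕ × ℚ × ℚ))) :=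
    Cnt.list h1 fun _ _ _ _ => trivial
  obtain ⟨e, he, he'⟩ := h2.enum ⟨[], trivial⟩
  exact ⟨e, he, fun l => (he' l).1 trivial⟩

theorem WNet.sep (hc : WCpt N X) {g : ℕ → X → ℝ}
    (hg : IR N (fun p : ℕ × X => g p.1 p.2)) (hgc : ∀ n, Continuous (g n)) {K : St N X}
    (hK : IsClosed K.s) (hs : ∀ x ∈ K, ∀ y ∈ K, x ≠ y → ∃ n, g n x ≠ g n y) : WNet N K := by
  obtain ⟨e, he, he'⟩ := net_enum (N := N)
  have h1 : IP N (fun p : ℕ × X => p.2 ∈ K ∧ ∀ t, t ∈ e p.1 →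
      ((t.2.1 : ℚ) : ℝ) < g t.1 p.2 ∧ g t.1 p.2 < ((t.2.2 : ℚ) : ℝ)) := by
    simp (maxDischargeDepth := 99) [he.comp, hg.comp2]
  refine ⟨fun n => ⟨{y | y ∈ K ∧ ∀ t, t ∈ e n →
      ((t.2.1 : ℚ) : ℝ) < g t.1 y ∧ g t.1 y < ((t.2.2 : ℚ) : ℝ)}, h1.sec n⟩,
    IF.compr (P := fun n y => y ∈ K ∧ ∀ t, t ∈ e n →
      ((t.2.1 : ℚ) : ℝ) < g t.1 y ∧ g t.1 y < ((t.2.2 : ℚ) : ℝ)) h1, ?_⟩
  intro x hx U hU hxU
  obtain ⟨V, hV, hxV, hVU⟩ := WSp.base (N := N) x U hU hxU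
  have hK2 : IP N (fun y : X => y ∈ K ∧ ¬ y ∈ V) :=
    IP.and (IP.mem IF.id (IF.const K)) (IP.not (IP.mem IF.id (IF.const V)))
  have hcl : IsClosed (⟨{y | y ∈ K ∧ ¬ y ∈ V}, hK2⟩ : St N X).s := hK.inter hV.isClosed_compl
  have hP : IP N (fun t : ℕ × ℚ × ℚ => ((t.2.1 : ℚ) : ℝ) < g t.1 x ∧
      g t.1 x < ((t.2.2 : ℚ) : ℝ)) := by
    simp (maxDischargeDepth := 99) [hg.comp2]
  have hW : IP N (fun p : (ℕ × ℚ × ℚ) × X => g p.1.1 p.2 < ((p.1.2.1 : ℚ) : ℝ) ∨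
      ((p.1.2.2 : ℚ) : ℝ) < g p.1.1 p.2) := by
    simp (maxDischargeDepth := 99) [hg.comp2]
  obtain ⟨l, hl, hl'⟩ := hc.idxOn (K := ⟨{y | y ∈ K ∧ ¬ y ∈ V}, hK2⟩) hcl
    (P := fun t : ℕ × ℚ × ℚ => ((t.2.1 : ℚ) : ℝ) < g t.1 x ∧ g t.1 x < ((t.2.2 : ℚ) : ℝ))
    (U := fun (t : ℕ × ℚ × ℚ) y => g t.1 y < ((t.2.1 : ℚ) : ℝ) ∨ ((t.2.2 : ℚ) : ℝ) < g t.1 y)
    hP hW (fun t _ => (isOpen_lt (hgc _) continuous_const).union
      (isOpen_lt continuous_const (hgc _))) (by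
      rintro y ⟨hyK, hyV⟩
      have hne : x ≠ y := by
        rintro rfl
        exact hyV hxV
      obtain ⟨n, hn⟩ := hs x hx y hyK hne
      rcases lt_or_gt_of_ne hn with h2 | h2
      · obtain ⟨q, hq1, hq2⟩ := exists_rat_btwn h2
        obtain ⟨p, hp⟩ := exists_rat_lt (g n x)
        exact ⟨(n, p, q), ⟨hp, hq1⟩, Or.inr hq2⟩
      · obtain ⟨q, hq1, hq2⟩ := exists_rat_btwn h2
        obtain ⟨p, hp⟩ := exists_rat_gt (g n x)
        exact ⟨(n, q, p), ⟨hq2, hp⟩, Or.inl hq1⟩)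
  obtain ⟨n, rfl⟩ := he' l
  refine ⟨n, ⟨hx, fun t ht => hl t ht⟩, fun y hy _ => ?_⟩
  obtain ⟨hyK, hyt⟩ := hy
  by_contra hyU
  obtain ⟨t, ht, h2⟩ := hl' y ⟨hyK, fun h => hyU (hVU h)⟩
  have h3 := hyt t ht
  rcases h2 with h2 | h2
  · exact lt_asymm h2 h3.1
  · exact lt_asymm h2 h3.2

end CPY
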