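import Pool.Agent.CPY.E.Net
import Pool.Agent.CPY.IIdx

/-! # Points without neighbourhoods with countable networks

(problem MP_ba5606_gt, project CPY, block E1; `simp (maxDischargeDepth := 99)` proves most goals `IP N _`, `IF N _`, `IR N _`,
see `WCal/Simp.lean`, `WCal/SimpR.lean`, `CPY/SimpC.lean`)

PROOFS.
* `exists_not_net`. Otherwise every `p ∈ K` has an open internal `U ∋ p` with `WNet (U ∩ K)`. The family of all open internal
  `U` such that `WNet {x | x ∈ U ∧ x ∈ K}`, together with the complement of `K`, is an internal cover of `X` (the predicate `WNet`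
  is internal: quantifiers over `Fn N ℕ (St N X)`, `X`, `St N X` (by `WSp.base` internal open sets suffice), `ℕ`). Take a finite
  subcover; `K` is a finite union of sets with countable networks (`WNet.union`, `WNet.mono`, induction on the list). -/

set_option autoImplicit false

universe u v w

namespace CPY

open WCal STP WM

variable {N : Type u} [WM N] [Std N] {X : Type v} [WTy N X] [TopologicalSpace X] [WSp N X]

omit [Std N] in
private theorem wnet_iff {A : St N X} : WNet N A ↔ ∃ M : Fn N ℕ (St N X), ∀ x, x ∈ A →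
    ∀ U : St N X, IsOpen U.s → x ∈ U → ∃ n, x ∈ M n ∧ ∀ y, y ∈ M n → y ∈ A → y ∈ U := by
  constructor
  · rintro ⟨M, hM, h⟩
    exact ⟨⟨M, hM⟩, fun x hx U hU hxU => h x hx U.s hU hxU⟩
  · rintro ⟨M, h⟩
    refine ⟨M.f, M.int, fun x hx U hU hxU => ?_⟩
    obtain ⟨V, hV, hxV, hVU⟩ := WSp.base (N := N) x U hU hxU
    obtain ⟨n, h1, h2⟩ := h x hx V hV hxV
    exact ⟨n, h1, fun y hy hy' => hVU (h2 y hy hy')⟩

omit [Std N] in
private theorem ip_wnet : IP N (fun A : St N X => WNet N A) := by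
  refine IP.congr (fun A => wnet_iff.symm) ?_
  simp (maxDischargeDepth := 99) [(WSp.fam (N := N) (X := X)).comp]

private theorem wnet_list {K : St N X} (l : List (St N X))
    (hl : ∀ U ∈ l, ∃ A : St N X, (∀ x, x ∈ U → x ∈ K → x ∈ A) ∧ WNet N A) :
    ∃ B : St N X, (∀ x, x ∈ K → (∃ U ∈ l, x ∈ U) → x ∈ B) ∧ WNet N B := by
  induction l with
  | nil =>
    refine ⟨⟨{x | False}, IP.const False⟩, ?_, ?_⟩
    · rintro x _ ⟨U, hU, _⟩
      exact absurd hU List.not_mem_nil
    · exact ⟨fun _ => ⟨{x | False}, IP.const False⟩, IF.const _, fun x hx => hx.elim⟩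
  | cons U l ih =>
    obtain ⟨B, hB, hB'⟩ := ih fun V hV => hl V (List.mem_cons_of_mem _ hV)
    obtain ⟨A, hA, hA'⟩ := hl U List.mem_cons_self
    refine ⟨⟨{x | x ∈ A ∨ x ∈ B}, IP.or (IP.mem IF.id (IF.const A)) (IP.mem IF.id (IF.const B))⟩,
      ?_, WNet.union hA' hB' fun x hx => hx⟩
    rintro x hx ⟨V, hV, hxV⟩
    rcases List.mem_cons.1 hV with rfl | hV
    · exact Or.inl (hA x hxV hx)
    · exact Or.inr (hB x hx ⟨V, hV, hxV⟩)

/-- a point all of whose neighbourhoods have no countable network -/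
theorem exists_not_net (hc : WCpt N X) {K : St N X} (hK : IsClosed K.s)
    (hn : ¬ WNet N K) : ∃ p ∈ K, ∀ U A : St N X, IsOpen U.s → p ∈ U → (∀ x, x ∈ U → x ∈ K → x ∈ A) →
      ¬ WNet N A := by
  by_contra hcon
  push Not at hcon
  have hP : IP N (fun U : St N X => IsOpen U.s ∧
      ∃ A : St N X, (∀ x, x ∈ U → x ∈ K → x ∈ A) ∧ WNet N A) := by
    have h1 := ip_wnet (N := N) (X := X)
    simp (maxDischargeDepth := 99) [(WSp.fam (N := N) (X := X)).comp, h1.comp]
  have hU : IP N (fun p : St N X × X => p.2 ∈ p.1) := IP.mem IF.snd IF.fst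
  obtain ⟨l, hl, hl'⟩ := hc.idxOn (U := fun (U : St N X) (x : X) => x ∈ U) hK hP hU
    (fun U hU => hU.1) fun x hx => by
      obtain ⟨U, A, h1, h2, h3, h4⟩ := hcon x hx
      exact ⟨U, ⟨h1, A, h3, h4⟩, h2⟩
  obtain ⟨B, hB, hB'⟩ := wnet_list l fun U hU => (hl U hU).2
  exact hn (WNet.mono (fun x hx => hB x hx (hl' x hx)) hB')

end CPY
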