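import Pool.Agent.CPY.E.Q
import Pool.Agent.CPY.ELoc

/-! # Basic sets with bounded requirements

(problem MP_ba5606_gt, project CPY, block E1; `simp (maxDischargeDepth := 99)` proves most goals `IP N _`, `IF N _`, `IR N _`,
see `WCal/Simp.lean`, `WCal/SimpR.lean`, `CPY/SimpC.lean`)

PROOFS.
* `PP_int`: unfold `Cfg.PP`, `UU`, `bas`, `Cfg.pts`; the sequence `C.pts s : ℕ → X` is internal (`IF.ite` with `(Nat.unpair n).1 = 0, 1, 2, 3`).
* `exists_codes`: `Cfg.loc` (`ELoc.lean`) gives for every `c : CC N X` a list `B` and `m` with `PP B m` and `c ∈ bas (pts s) B`. Let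
  `λ B := B.map (fun t => (C.pts s t.1, t.2))`, so `Bv (λ B) = bas (C.pts s) B`. For `n : ℕ` let `B n` be the list with the number
  `(Nat.unpair n).1` in an internal enumeration of `List (ℕ × ℚ × ℚ)` (`Cnt.list`), `m n := (Nat.unpair n).2`; `m n ≤ n`. Let
  `l n := λ (B n)` if `PP (B n) (m n)` holds, and `l n := [(C.D 0, 1, 0)]` otherwise (then `Bv (l n)` is empty). -/

set_option autoImplicit false

universe u v w

namespace CPY

open WCal STP WM Filter Topology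

variable {N : Type u} [WM N] [Std N] {X : Type v} [WTy N X] [TopologicalSpace X] [WSp N X] {Θ : Type w} [WTy N Θ]
  [LinearOrder Θ]

omit [Std N] in
/-- the enumeration of the rational numbers is internal -/
private theorem IF_qe : IF N (fun n : ℕ => qe.symm n) := by
  refine IP.of_sat (Fml.ex (fOP 1 0 0)) (fun _ => rg N ℕ) fun p => ?_
  simp only [sat_ex, sat_fOP, cns_zero, cns_one, isOP_iff]
  change qe.symm p.1 = p.2 ↔ ∃ x, op (cd N p.1) (cd N p.2) = op x x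
  have h2 : cd N p.2 = cd N (qe p.2) := rfl
  rw [h2]
  constructor
  · intro h
    exact ⟨cd N (qe p.2), by rw [← h, Equiv.apply_symm_apply]⟩
  · rintro ⟨x, hx⟩
    obtain ⟨h1, h2⟩ := op_inj.1 hx
    have h3 : p.1 = qe p.2 := cd_inj.1 (h1.trans h2.symm)
    rw [h3, Equiv.symm_apply_apply]

variable (N) in
omit [Std N] in
private theorem exists_enum : ∃ e : ℕ → List (ℕ × ℚ × ℚ), IF N e ∧ ∀ B, ∃ n, e n = B := by
  have h1 : Cnt (⟨Set.univ, IP.const True⟩ : St N (ℕ × ℚ × ℚ)) := by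
    refine Cnt.range (e := fun n : ℕ => ((Nat.unpair n).1,
      qe.symm (Nat.unpair (Nat.unpair n).2).1, qe.symm (Nat.unpair (Nat.unpair n).2).2)) ?_ ?_
    · have h := IF_qe (N := N)
      exact (IF.unpair1 IF.id).pair ((h.comp (IF.unpair1 (IF.unpair2 IF.id))).pair
        (h.comp (IF.unpair2 (IF.unpair2 IF.id))))
    · rintro ⟨k, q, q'⟩ -
      exact ⟨Nat.pair k (Nat.pair (qe q) (qe q')), by simp⟩
  have h2 : Cnt (⟨Set.univ, IP.const True⟩ : St N (List (ℕ × ℚ × ℚ))) :=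
    Cnt.list h1 fun _ _ _ _ => trivial
  obtain ⟨e, he, he'⟩ := h2.enum ⟨[], trivial⟩
  exact ⟨e, he, fun B => (he' B).1 trivial⟩

omit [Std N] in
private theorem IF_getD {α : Type*} {β : Type*} [WTy N α] [WTy N β] {l : α → List β} {i : α → ℕ}
    (hl : IF N l) (hi : IF N i) (d : β) : IF N (fun c => (l c).getD (i c) d) := by
  refine (IF.optElim (b := fun _ => d) (g := fun (_ : α) (b : β) => b) (IF.getElem? hl hi)
    (IF.const d) IF.snd).congr fun c => ?_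
  rw [List.getD_eq_getElem?_getD]
  cases (l c)[i c]? <;> rfl

omit [LinearOrder Θ] in
private theorem UU_int {F : Set ((ℕ → Bool) × (ℕ → ℝ) × (ℕ → ℕ))}
    (hF : IP N (fun t : List Bool × List ℚ × List ℕ => TF F t.1 t.2.1 t.2.2)) {b : ℕ → Bool}
    (hb : IF N b) {r : Θ → ℕ → ℝ} (hr : IR N (fun p : Θ × ℕ => r p.1 p.2)) :
    IP N (fun p : Θ × List ℕ => UU F b (r p.1) p.2) := by
  unfold UU
  refine IP.ex (IP.ex (IP.and ?_ (IP.all (IP.imp ?_ (IP.and ?_ ?_)))))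
  · exact hF.comp3 (IF.snd.comp IF.fst) IF.snd (IF.snd.comp (IF.fst.comp IF.fst))
  · simp (maxDischargeDepth := 99)
  · refine IP.eq (hb.comp IF.snd) (IF_getD ?_ ?_ _)
    · simp (maxDischargeDepth := 99)
    · simp (maxDischargeDepth := 99)
  · refine IP.ltR (IR.abs (IR.sub (hr.comp2 ?_ ?_) (IR.rat (IF_getD ?_ ?_ _)))) (IR.half_pow ?_)
    all_goals simp (maxDischargeDepth := 99)

theorem IF_pts {C : Cfg X Θ} (hC : ICfg N C) {s : ℕ → Θ} (hs : IF N s) : IF N (C.pts s) := by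
  have h0 : ∀ k : ℕ, IP N (fun n : ℕ => (Nat.unpair n).1 = k) := fun k =>
    IP.eq (IF.unpair1 IF.id) (IF.const k)
  have h2 : IF N (fun n : ℕ => (Nat.unpair n).2) := IF.unpair2 IF.id
  have h1 := IF.ite (h0 0) (hC.D.comp h2) (IF.ite (h0 1) (hC.z.comp h2) (IF.ite (h0 2)
    (hC.zs.comp h2) (IF.ite (h0 3) (hC.x.comp (hs.comp h2)) (hC.y.comp (hs.comp h2)))))
  refine h1.congr fun n => ?_
  unfold Cfg.pts
  generalize (Nat.unpair n).1 = k
  match k with
  | 0 => exact if_pos rfl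
  | 1 => rw [if_neg (by omega), if_pos rfl]; rfl
  | 2 => rw [if_neg (by omega), if_neg (by omega), if_pos rfl]; rfl
  | 3 => rw [if_neg (by omega), if_neg (by omega), if_neg (by omega), if_pos rfl]; rfl
  | k + 4 =>
    rw [if_neg (by omega), if_neg (by omega), if_neg (by omega), if_neg (by omega)]
    rfl

theorem PP_int (hΘ : OmO N Θ) {F : Set ((ℕ → Bool) × (ℕ → ℝ) × (ℕ → ℕ))}
    (hF : IP N (fun t : List Bool × List ℚ × List ℕ => TF F t.1 t.2.1 t.2.2)) {C : Cfg X Θ}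
    (hC : ICfg N C) {b : ℕ → Bool} (hb : IF N b) (γ : Θ) {s : ℕ → Θ} (hs : IF N s) :
    IP N (fun p : List (ℕ × ℚ × ℚ) × ℕ => C.PP F b γ s p.1 p.2) := by
  have hp := IF_pts hC hs
  have hU := UU_int hF hb (r_int hC)
  have hlt : IP N (fun a : Θ => γ < a) :=
    IP.comp (P := fun p : Θ × Θ => p.1 < p.2) (f := fun a => (γ, a)) hΘ.lt
      ((IF.const γ).pair IF.id)
  have hq := IF_qC hC
  have h1 : IP N (fun p : List (ℕ × ℚ × ℚ) × ℕ => ∀ a, ¬ γ < a → ∀ t, UU F b (C.r a) t →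
      (∀ y, y ∈ p.1 → (y.2.1 : ℝ) < qC hC a t (C.pts s y.1) ∧
        qC hC a t (C.pts s y.1) < (y.2.2 : ℝ)) → t.length ≤ p.2) := by
    have hev : IR N (fun p : (((List (ℕ × ℚ × ℚ) × ℕ) × Θ) × List ℕ) × ℕ × ℚ × ℚ =>
        qC hC p.1.1.2 p.1.2 (C.pts s p.2.1)) :=
      IR.evC (hq.comp ((IF.snd.comp (IF.fst.comp IF.fst)).pair (IF.snd.comp IF.fst)))
        (hp.comp (IF.fst.comp IF.snd))
    refine IP.all (IP.imp ?_ (IP.all (IP.imp ?_ (IP.imp (IP.all (IP.imp ?_ (IP.and ?_ ?_))) ?_))))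
    · exact IP.not (hlt.comp IF.snd)
    · exact hU.comp ((IF.snd.comp IF.fst).pair IF.snd)
    · exact IP.memList IF.snd (IF.fst.comp (IF.fst.comp (IF.fst.comp IF.fst)))
    · exact IP.ltR (IR.rat (IF.fst.comp (IF.snd.comp IF.snd))) hev
    · exact IP.ltR hev (IR.rat (IF.snd.comp (IF.snd.comp IF.snd)))
    · exact IP.le (IF.length IF.snd) (IF.snd.comp (IF.fst.comp IF.fst))
  refine h1.congr fun p => ?_
  unfold Cfg.PP
  simp only [not_lt]
  exact Iff.rfl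

theorem exists_codes (hΘ : OmO N Θ) {F : Set ((ℕ → Bool) × (ℕ → ℝ) × (ℕ → ℕ))} (hFc : IsClosed F)
    (hF : IP N (fun t : List Bool × List ℚ × List ℕ => TF F t.1 t.2.1 t.2.2)) {C : Cfg X Θ}
    (hC : ICfg N C) {b : ℕ → Bool} (hb : IF N b) {γ : Θ} {s : ℕ → Θ} (hs : IF N s) (hγ : ∀ n, γ < s n)
    (hFs : ∀ y v, (b, y, v) ∈ F → ∃ n, y = C.r (s n)) :
    ∃ l : ℕ → List (X × ℚ × ℚ), IF N l ∧ (∀ c : CC N X, ∃ n, (c : X → ℝ) ∈ Bv (l n)) ∧
      ∀ n a t, a ≤ γ → UU F b (C.r a) t → C.q a t ∈ Bv (l n) → t.length ≤ n := by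
  classical
  obtain ⟨e, he, he'⟩ := exists_enum N
  have hp := IF_pts hC hs
  have hPP := PP_int hΘ hF hC hb γ hs
  refine ⟨fun n => if C.PP F b γ s (e (Nat.unpair n).1) (Nat.unpair n).2 then
    (e (Nat.unpair n).1).map (fun t => (C.pts s t.1, t.2)) else [(C.D 0, 1, 0)], ?_, ?_, ?_⟩
  · refine IF.ite ?_ ?_ (IF.const _)
    · exact hPP.comp2 (he.comp (IF.unpair1 IF.id)) (IF.unpair2 IF.id)
    · refine IF.map (f := fun (_ : ℕ) (t : ℕ × ℚ × ℚ) => (C.pts s t.1, t.2)) ?_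
        (he.comp (IF.unpair1 IF.id))
      exact (hp.comp (IF.fst.comp IF.snd)).pair (IF.snd.comp IF.snd)
  · intro c
    obtain ⟨B, m, hB, hcB⟩ := C.loc hFc hγ hFs c.cont
    obtain ⟨i, hi⟩ := he' B
    refine ⟨Nat.pair i m, ?_⟩
    simp only [Nat.unpair_pair]
    rw [hi, if_pos hB]
    intro t ht
    obtain ⟨t', ht', rfl⟩ := List.mem_map.1 ht
    exact hcB t' ht'
  · intro n a t ha ht hq
    by_cases h : C.PP F b γ s (e (Nat.unpair n).1) (Nat.unpair n).2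
    · simp only [if_pos h] at hq
      refine (h a ha t ht ?_).trans (Nat.unpair_right_le n)
      intro t' ht'
      exact hq _ (List.mem_map.2 ⟨t', ht', rfl⟩)
    · simp only [if_neg h] at hq
      have h1 := hq (C.D 0, 1, 0) (by simp)
      have h2 : ((1 : ℚ) : ℝ) < C.q a t (C.D 0) := h1.1
      have h3 : C.q a t (C.D 0) < ((0 : ℚ) : ℝ) := h1.2
      norm_num at h2 h3
      linarith

end CPY
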