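import Pool.Agent.CPY.E.NetP

/-! # The two points

(problem MP_ba5606_gt, project CPY, block E1; `simp (maxDischargeDepth := 99)` proves most goals `IP N _`, `IF N _`, `IR N _`,
see `WCal/Simp.lean`, `WCal/SimpR.lean`, `CPY/SimpC.lean`)

PROOF. Let `p` be as in `exists_not_net`. There is a point `p' ≠ p` of `K` such that every open `V ∋ p'` contains a point `≠ p'`
(of `K`). Otherwise every `x ∈ K`, `x ≠ p`, is isolated in `X`... more precisely: for `x ∈ K`, `x ≠ p`, there is an open `V ∋ x` with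
`V = {x}`, and as `x` is in the closure of the range of `D`, `x = D n` for some `n`; so `K ⊆ {p} ∪ range D` and `K` has a countable
network (`WNet.cnt`, `WNet.union`), a contradiction. Let `U` be an open set with `p ∈ U`, `p' ∉ U` (`T2Space`), and `g` from `Ty`:
`g p = 1`, `g = 0` outside `U`, `0 ≤ g ≤ 1`. The open set `V := {x | 2/3 < g x}` contains `p`; `V ∩ K` is contained in
`A := {x ∈ K | 2/3 ≤ g x}`. (`V` is internal; `exists_not_net` is applied to `V` and `A`.) -/

set_option autoImplicit false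

universe u v w

namespace CPY

open WCal STP WM

variable {N : Type u} [WM N] [Std N] {X : Type v} [WTy N X] [TopologicalSpace X] [WSp N X]

theorem exists_pts [T2Space X] (hc : WCpt N X) (ht : Ty N X) {D : ℕ → X} (hD : IF N D)
    {K : St N X} (hK : K.s = closure (Set.range D)) (hn : ¬ WNet N K) :
    ∃ (g : CC N X) (p' : X), (∀ x, 0 ≤ g x ∧ g x ≤ 1) ∧ g p' = 0 ∧
      (∀ V : Set X, IsOpen V → p' ∈ V → ∃ z ∈ V, z ≠ p') ∧
      ∀ A : St N X, (∀ x ∈ K, (2 / 3 : ℝ) ≤ g x → x ∈ A) → ¬ WNet N A := by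
  have hKc : IsClosed K.s := by rw [hK]; exact isClosed_closure
  obtain ⟨p, hp, hpn⟩ := exists_not_net hc hKc hn
  have hex : ∃ p' : X, p' ≠ p ∧ ∀ V : Set X, IsOpen V → p' ∈ V → ∃ z ∈ V, z ≠ p' := by
    by_contra hcon
    push Not at hcon
    apply hn
    have hP : IP N (fun n : ℕ => n = 0) := IP.eq IF.id (IF.const 0)
    have hD' : IF N (fun n : ℕ => D (n - 1)) := IF.comp hD (IF.sub IF.id (IF.const 1))
    have he := IF.ite hP (IF.const p) hD'
    refine WNet.cnt he (fun x hx => ?_)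
    by_cases hxp : x = p
    · exact ⟨0, by simp [hxp]⟩
    · obtain ⟨V, hV, hxV, hVx⟩ := hcon x hxp
      have hx' : x ∈ closure (Set.range D) := by
        rw [← hK]
        exact hx
      obtain ⟨y, hy, n, hn'⟩ := mem_closure_iff.1 hx' V hV hxV
      refine ⟨n + 1, ?_⟩
      have h1 : y = x := hVx y hy
      simp [hn', h1]
  obtain ⟨p', hpp, hacc⟩ := hex
  obtain ⟨U, W, hU, hW, hpU, hpW, hdis⟩ := t2_separation (Ne.symm hpp)
  obtain ⟨g, hg, hgp, hg0⟩ := ht p U hU hpU
  have hp'U : p' ∉ U := fun h => Set.disjoint_left.1 hdis h hpW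
  refine ⟨g, p', hg, hg0 p' hp'U, hacc, ?_⟩
  intro A hA
  have hint : IP N (fun x : X => ((2 / 3 : ℚ) : ℝ) < g x) :=
    IP.ltR (IR.rat (IF.const (2 / 3 : ℚ))) (IR.evC (IF.const g) IF.id)
  refine hpn ⟨{x | ((2 / 3 : ℚ) : ℝ) < g x}, hint⟩ A ?_ ?_ ?_
  · exact isOpen_lt continuous_const g.cont
  · change ((2 / 3 : ℚ) : ℝ) < g p
    rw [hgp]
    norm_num
  · intro x hx hxK
    have hx' : ((2 / 3 : ℚ) : ℝ) < g x := hx
    refine hA x hxK ?_
    push_cast at hx'
    exact hx'.le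

end CPY
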