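import Pool.Agent.CPY.HPr
import Pool.Agent.CPY.SimpC
import Pool.Agent.CPY.EThe

/-! # The functions `θ_h` are internal

(problem MP_ba5606_gt, project CPY, block E1; `simp (maxDischargeDepth := 99)` proves most goals `IP N _`, `IF N _`, `IR N _`,
see `WCal/Simp.lean`, `WCal/SimpR.lean`, `CPY/SimpC.lean`)

PROOFS. `lt_th_iff` (`EThe.lean`): `r < th e h x ↔ r < 0 ∨ ∃ i j, j ≤ h i ∧ r < (1 / (i + 1)) * e (Nat.pair i j) x`. For rational `r` the last
inequality means `r * (i + 1) < e (Nat.pair i j) x`. The function `(s, i) ↦ ext s i = s.getD i 0` is internal (`IF.getElem?`,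
`IF.optElim`). -/

set_option autoImplicit false

universe u v w

namespace CPY

open WCal STP WM

variable {N : Type u} [WM N] [Std N] {X : Type v} [WTy N X] [TopologicalSpace X] [WSp N X]

theorem IF.ext {γ : Type w} [WTy N γ] {s : γ → List ℕ} {i : γ → ℕ} (hs : IF N s) (hi : IF N i) :
    IF N (fun c => ext (s c) (i c)) := by
  have h : IF N (fun c => ((s c)[i c]?).elim 0 fun n : ℕ => n) :=
    IF.optElim (IF.getElem? hs hi) (IF.const 0) IF.snd
  refine IF.congr (fun c => ?_) h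
  show ((s c)[i c]?).elim 0 (fun n : ℕ => n) = (s c).getD (i c) 0
  rw [List.getD_eq_getElem?_getD]
  cases (s c)[i c]? <;> rfl

theorem IR.th {e : ℕ → X → ℝ} (hd : Dis e) (he : IR N (fun p : ℕ × X => e p.1 p.2)) {γ : Type w}
    [WTy N γ] {h : γ → ℕ → ℕ} {x : γ → X} (hh : IF N (fun p : γ × ℕ => h p.1 p.2)) (hx : IF N x) :
    IR N (fun c => th e (h c) (x c)) := by
  have h1 : IP N (fun p : γ × ℚ => (p.2 : ℝ) < 0 ∨ ∃ i j : ℕ, j ≤ h p.1 i ∧
      (p.2 : ℝ) * ((i : ℝ) + 1) < e (Nat.pair i j) (x p.1)) := by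
    simp (maxDischargeDepth := 99) [hh.comp2, hx.comp, he.comp2]
  refine IP.congr (fun p => ?_) h1
  rw [lt_th_iff hd]
  have h2 : ∀ i : ℕ, (0 : ℝ) < (i : ℝ) + 1 := fun i => by positivity
  simp only [one_div, ← div_eq_inv_mul, lt_div_iff₀ (h2 _)]

end CPY
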