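import Pool.Agent.CPY.E.ICfg
import Pool.Agent.CPY.E.ThR

/-! # The points `q_{a,s}` of `CC N X`

(problem MP_ba5606_gt, project CPY, block E1; `simp (maxDischargeDepth := 99)` proves most goals `IP N _`, `IF N _`, `IR N _`,
see `WCal/Simp.lean`, `WCal/SimpR.lean`, `CPY/SimpC.lean`)

PROOFS.
* `r_int`: composition. `r_inj` (native): let `b < a` and `C.r a = C.r b`; the continuous functions `f a` and `f b` agree on the range of
  `D`, so on its closure, which contains `x a`, `y a`; but `f b (x a) = f b (y a)` (`C.eq`) and `f a (x a) ≠ f a (y a)` (`C.ne`).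
* `qC`: sum of two internal continuous functions (`th_cont`, `IR.th` with `ext s` for a fixed list, which is an internal function).
  `IF_qC`: `IR` of the joint function `((a, s), x) ↦ C.f a x + th C.e (ext s) x`.
* `qC_lim`: `|q_{a, v|k} - (f_a + θ_v)| ≤ 1 / (k + 1)` (`th_near`), convergence in the topology of `CC N X` (induced from the product).
* `kap n` is the constant function `n + 3`; `IF_kap`: `q < n + 3` is an internal relation of `(q, (n, x))`. -/

set_option autoImplicit false

universe u v w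

namespace CPY

open WCal STP WM Filter Topology

variable {N : Type u} [WM N] [Std N] {X : Type v} [WTy N X] [TopologicalSpace X] [WSp N X] {Θ : Type w} [WTy N Θ]
  [LinearOrder Θ]

theorem r_int {C : Cfg X Θ} (hC : ICfg N C) : IR N (fun p : Θ × ℕ => C.r p.1 p.2) := by
  have h1 := hC.f
  have h2 := hC.D
  show IR N (fun p : Θ × ℕ => C.f p.1 (C.D p.2))
  simp (maxDischargeDepth := 99) [h1.comp2, h2.comp]

theorem r_inj (C : Cfg X Θ) : Function.Injective C.r := by
  have key : ∀ a b, b < a → C.r a ≠ C.r b := by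
    intro a b hab h
    have h1 : Set.EqOn (C.f a) (C.f b) (closure (Set.range C.D)) := by
      refine Set.EqOn.closure ?_ (C.fc a) (C.fc b)
      rintro _ ⟨n, rfl⟩
      exact congrFun h n
    apply C.ne a
    rw [h1 (C.xD a), h1 (C.yD a)]
    exact C.eq a b hab
  intro a b h
  rcases lt_trichotomy a b with h1 | h1 | h1
  · exact absurd h.symm (key b a h1)
  · exact h1
  · exact absurd h (key a b h1)

theorem qC_int {C : Cfg X Θ} (hC : ICfg N C) (a : Θ) (s : List ℕ) : IR N (C.q a s) := by
  have h1 := hC.f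
  have h2 : IR N (fun x : X => th C.e (ext s) x) :=
    IR.th C.dis hC.e (h := fun _ : X => ext s) (IF.ext (IF.const s) IF.snd) IF.id
  show IR N (fun x => C.f a x + th C.e (ext s) x)
  simp (maxDischargeDepth := 99) [h1.comp2, h2]

theorem qC_cont (C : Cfg X Θ) (a : Θ) (s : List ℕ) : Continuous (C.q a s) :=
  (C.fc a).add (th_cont C.dis (ext s))

/-- the functions `q_{a,s} = f_a + θ_{s 0 0 ...}` as elements of `CC N X` -/
noncomputable def qC {C : Cfg X Θ} (hC : ICfg N C) (a : Θ) (s : List ℕ) : CC N X :=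
  ⟨C.q a s, qC_int hC a s, qC_cont C a s⟩

theorem IF_qC {C : Cfg X Θ} (hC : ICfg N C) : IF N (fun p : Θ × List ℕ => qC hC p.1 p.2) := by
  have h1 := hC.f
  have h2 : IR N (fun p : (Θ × List ℕ) × X => th C.e (ext p.1.2) p.2) := by
    refine IR.th C.dis hC.e (h := fun p : (Θ × List ℕ) × X => ext p.1.2) (IF.ext ?_ ?_) IF.snd
    · simp (maxDischargeDepth := 99)
    · simp (maxDischargeDepth := 99)
  refine IF.ccMk ?_
  show IR N (fun p : (Θ × List ℕ) × X => C.f p.1.1 p.2 + th C.e (ext p.1.2) p.2)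
  simp (maxDischargeDepth := 99) [h1.comp2, h2]

/-- the limit `f_a + θ_v` -/
theorem exists_qv {C : Cfg X Θ} (hC : ICfg N C) (a : Θ) {v : ℕ → ℕ} (hv : IF N v) :
    ∃ c : CC N X, ∀ x, c x = C.f a x + th C.e v x := by
  have h1 := hC.f
  have h2 : IR N (fun x : X => th C.e v x) :=
    IR.th C.dis hC.e (h := fun _ : X => v) (hv.comp IF.snd) IF.id
  refine ⟨⟨fun x => C.f a x + th C.e v x, ?_, (C.fc a).add (th_cont C.dis v)⟩, fun x => rfl⟩
  simp (maxDischargeDepth := 99) [h1.comp2, h2]

theorem qC_lim {C : Cfg X Θ} (hC : ICfg N C) (a : Θ) {v : ℕ → ℕ} {c : CC N X}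
    (hc : ∀ x, c x = C.f a x + th C.e v x) :
    Tendsto (fun k => qC hC a (List.ofFn fun i : Fin k => v i)) atTop (𝓝 c) := by
  have h0 : 𝓝 c = comap CC.f (𝓝 c.f) := nhds_induced _ _
  rw [h0, tendsto_comap_iff, tendsto_pi_nhds]
  intro x
  rw [tendsto_iff_dist_tendsto_zero]
  refine squeeze_zero (fun _ => dist_nonneg) (g := fun k : ℕ => 1 / ((k : ℝ) + 1)) (fun k => ?_)
    tendsto_one_div_add_atTop_nhds_zero_nat
  have h1 : ∀ i < k, ext (List.ofFn fun i : Fin k => v i) i = v i := by
    intro i hi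
    simp [ext, hi]
  have h2 := th_near C.dis h1 x
  have h3 : (CC.f ∘ fun k => qC hC a (List.ofFn fun i : Fin k => v i)) k x =
      C.f a x + th C.e (ext (List.ofFn fun i : Fin k => v i)) x := rfl
  rw [Real.dist_eq, h3, hc x]
  have h4 : C.f a x + th C.e (ext (List.ofFn fun i : Fin k => v i)) x - (C.f a x + th C.e v x) =
      th C.e (ext (List.ofFn fun i : Fin k => v i)) x - th C.e v x := by ring
  rw [h4]
  exact h2

variable (N X) in
theorem kap_int (n : ℕ) : IR N (fun _ : X => (n : ℝ) + 3) := by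
  simp (maxDischargeDepth := 99)

variable (N X) in
/-- the constant functions `n + 3` -/
noncomputable def kap (n : ℕ) : CC N X := ⟨fun _ => (n : ℝ) + 3, kap_int N X n, continuous_const⟩

variable (N X) in
theorem IF_kap : IF N (kap N X) := by
  refine IF.ccMk ?_
  show IR N (fun p : ℕ × X => (p.1 : ℝ) + 3)
  simp (maxDischargeDepth := 99)

end CPY
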