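import Pool.Agent.CPY.E.KpI
import Pool.Agent.CPY.E.PPI
import Pool.Agent.CPY.E.Code
import Pool.Agent.CPY.ThetaF
import Pool.Agent.CPY.IIdx

/-! # The second question in the model

(problem MP_ba5606_gt, project CPY, block E1: main theorem)

PROOFS.
* `exists_final`: `exists_codes`, `exists_theta` give `P` with: `P c < m → ∃ n < m, c ∈ Bv (l n)`. `exists_code` for `x0 := C.D 0` and `P` gives
  `φ`. Let `a ≤ γ`. `φ (kap n) = b n`, so the first part of `Kp` holds and the real coded by `φ` is `b`. Let `t` be an approximation over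
  `(b, r a)`; `q_{a,t} x0 ≤ 2` (`C.f1`, `th_le_one`), so `φ (q_{a,t}) = P (q_{a,t})`. If `P (q_{a,t}) < |t|` then there is `n < |t|` with
  `q_{a,t} ∈ Bv (l n)`, so `|t| ≤ n`, a contradiction.
* `Q2`: suppose that the closure has no countable network; `exists_cfg`, `r_int`, `r_inj`, `HPr` give `F`. The internal family of the open
  sets `{φ | ¬ KpC F hC a φ}` (`a : Θ`) covers `CC N (CC N X)` (`exists_not_KpC`). By `WLin` (index form) there is an internal sequence
  `a n` of indices such that these sets cover. By `OmO.bdd` there is `γ` with `a n < γ` for all `n`. Take `b`, `s` from the last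
  part of `HPr` for `γ`, and `φ` from `exists_final`: `KpC F hC (a n) φ` for all `n`, a contradiction. -/

set_option autoImplicit false

universe u v w

namespace CPY

open WCal STP WM Filter Topology

variable {N : Type u} [WM N] [Std N] {X : Type v} [WTy N X] [TopologicalSpace X] [WSp N X] {Θ : Type w} [WTy N Θ]
  [LinearOrder Θ]

theorem exists_final (hΘ : OmO N Θ) {F : Set ((ℕ → Bool) × (ℕ → ℝ) × (ℕ → ℕ))} (hFc : IsClosed F)
    (hF : IP N (fun t : List Bool × List ℚ × List ℕ => TF F t.1 t.2.1 t.2.2)) {C : Cfg X Θ}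
    (hC : ICfg N C) {b : ℕ → Bool} (hb : IF N b) {γ : Θ} {s : ℕ → Θ} (hs : IF N s) (hγ : ∀ n, γ < s n)
    (hFs : ∀ y v, (b, y, v) ∈ F → ∃ n, y = C.r (s n)) :
    ∃ φ : CC N (CC N X), ∀ a ≤ γ, KpC F hC a φ := by
  obtain ⟨l, hl, hcov, hlen⟩ := exists_codes hΘ hFc hF hC hb hs hγ hFs
  obtain ⟨P, -, hP⟩ := exists_theta hl hcov
  obtain ⟨φ, hκ, hφ⟩ := exists_code (C.D 0) hb P
  refine ⟨φ, fun a ha => ⟨fun n => ?_, fun t ht => ?_⟩⟩
  · rw [hκ]
    cases b n <;> simp
  · have hb' : (fun n => decide (φ (kap N X n) = 1)) = b := by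
      funext n
      rw [hκ]
      cases b n <;> simp
    rw [hb'] at ht
    have h2 : qC hC a t (C.D 0) ≤ 2 := by
      have h3 : qC hC a t (C.D 0) = C.f a (C.D 0) + th C.e (ext t) (C.D 0) := rfl
      have h4 := C.f1 a (C.D 0)
      have h5 := th_le_one C.dis (ext t) (C.D 0)
      linarith
    rw [hφ _ h2]
    by_contra h
    obtain ⟨n, hn, hq⟩ := hP _ _ (not_le.1 h)
    exact absurd (hlen n a t ha ht hq) (by omega)

/-- the second question has a positive answer in the model -/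
theorem Q2 (hΘ : OmO N Θ) (hH : HPr N Θ) [T2Space X] (hc : WCpt N X) (ht : Ty N X)
    (hL : WLin N (CC N (CC N X))) {D : ℕ → X} (hD : IF N D) {K : St N X}
    (hK : K.s = closure (Set.range D)) : WNet N K := by
  by_contra hn
  obtain ⟨C, hC, -⟩ := exists_cfg (Θ := Θ) hΘ hc ht hD hK hn
  obtain ⟨F, hFc, hF, hF1, hF2⟩ := hH C.r (r_int hC) (fun a n => ⟨C.f0 a _, C.f1 a _⟩) (r_inj C)
  obtain ⟨a, hai, -, hcov⟩ := hL.seq (P := fun _ : Θ => True)
    (U := fun a φ => ¬ KpC F hC a φ) (IP.const _) (IP.not (KpC_int hF hC))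
    (fun a _ => KpC_open F hC a) (fun φ => by
      obtain ⟨a, h⟩ := exists_not_KpC hC hF1 φ
      exact ⟨a, trivial, h⟩)
    (by
      obtain ⟨a, -⟩ := hF1 (fun _ => true) (IF.const _)
      exact ⟨a, trivial⟩)
  obtain ⟨γ, hγ⟩ := hΘ.bdd a hai
  obtain ⟨b, s, hb, hs, hsγ, hFs⟩ := hF2 γ
  obtain ⟨φ, hφ⟩ := exists_final hΘ hFc hF hC hb hs hsγ hFs
  obtain ⟨n, hn'⟩ := hcov φ
  exact hn' (hφ _ (hγ n).le)

/-- the form for countable internal sets -/
theorem mono_of (hΘ : OmO N Θ) (hH : HPr N Θ) [T2Space X] (hc : WCpt N X) (ht : Ty N X)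
    (hL : WLin N (CC N (CC N X))) (A : St N X) (hA : Cnt A) : WNet N (clo A) := by
  by_cases h : ∃ a, a ∈ A
  · obtain ⟨e, he, he'⟩ := hA.enum h
    refine Q2 hΘ hH hc ht hL he (K := clo A) ?_
    have : A.s = Set.range e := by
      ext a
      exact he' a
    rw [← this]
    rfl
  · refine ⟨fun _ => A, IF.const _, fun x hx => ?_⟩
    have h1 : A.s = ∅ := by
      ext a
      exact ⟨fun h2 => absurd ⟨a, h2⟩ h, fun h2 => absurd h2 (Set.notMem_empty a)⟩
    have h2 : x ∈ closure A.s := hx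
    rw [h1, closure_empty] at h2
    exact absurd h2 (Set.notMem_empty x)

end CPY
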